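import Mathlib

/-!
# Project REC, packet L_LIN: the counting argument in an abstract commutative group
-/

set_option autoImplicit false

namespace Pool.Agent.Helper64.REC

open Module
open scoped LinearAlgebra.Projectivization

section

variable {p : ℕ} [Fact p.Prime] {G : Type} [CommGroup G]

theorem sep {V : Type} [AddCommGroup V] [Module (ZMod p) V] (v : V) (hv : v ≠ 0) :
    ∃ f : V →ₗ[ZMod p] ZMod p, f v ≠ 0 :=
  Module.Projective.exists_dual_ne_zero (ZMod p) hv

/-- functionals separate the elements modulo `p`-th powers -/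
theorem exists_functional (U : Subgroup G) (u : U) (hu : ∀ y : U, u ≠ y ^ p) :
    ∃ φ : Additive U →+ ZMod p, φ (Additive.ofMul u) ≠ 0 := by
  let P : Subgroup U := (powMonoidHom p : U →* U).range
  have hz : ∀ x : Additive (U ⧸ P), p • x = 0 := by
    intro x
    obtain ⟨y, hy⟩ := QuotientGroup.mk_surjective (Additive.toMul x)
    have h1 : (Additive.toMul x) ^ p = 1 := by
      rw [← hy, ← QuotientGroup.mk_pow, QuotientGroup.eq_one_iff]
      exact ⟨y, rfl⟩
    exact congrArg Additive.ofMul h1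
  let _ : Module (ZMod p) (Additive (U ⧸ P)) := AddCommGroup.zmodModule hz
  have hne : Additive.ofMul (QuotientGroup.mk u : U ⧸ P) ≠ 0 := by
    intro h
    have h1 : (QuotientGroup.mk u : U ⧸ P) = 1 := congrArg Additive.toMul h
    rw [QuotientGroup.eq_one_iff] at h1
    obtain ⟨y, hy⟩ := h1
    exact hu y hy.symm
  obtain ⟨f, hf⟩ := sep (p := p) _ hne
  exact ⟨f.toAddMonoidHom.comp (MonoidHom.toAdditive (QuotientGroup.mk' P)), hf⟩

/-- The counting argument. -/
theorem abs_count (U L : Subgroup G) (d : ℕ)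
    (hUL : ∀ u ∈ U, u ∈ L → ∃ y ∈ U, u = y ^ p)
    (hidx : ∀ A : Finset G, (∀ x ∈ A, ∀ y ∈ A, x ≠ y → x / y ∉ L) → A.card ≤ p ^ (2 * d))
    (A : Finset G) (hA : A.card = p ^ d) (hAU : ∀ x ∈ A, x ∈ U)
    (hAP : ∀ x ∈ A, ∀ y ∈ A, x ≠ y → ¬ ∃ z : G, x / y = z ^ p)
    {Wt : Type} (a : Wt → G) (kp : Wt → (Additive U →+ ZMod p))
    (hit : ∀ φ : Additive U →+ ZMod p, φ ≠ 0 → ∃ (W : Wt) (n : ZMod p), n ≠ 0 ∧ kp W = n • φ)
    (two : ∀ (W W' : Wt) (n n' : ℤ), W ≠ W' → ¬ (p : ℤ) ∣ n → ¬ (p : ℤ) ∣ n' → ∀ u ∈ U,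
      a W ^ n * a W' ^ n' * u ∈ L → ∃ m m' : ZMod p, (m ≠ 0 ∨ m' ≠ 0) ∧
        m • kp W + m' • kp W' = 0)
    (one : ∀ (W : Wt) (n : ℤ), ¬ (p : ℤ) ∣ n → ∀ u ∈ U, a W ^ n * u ∈ L → kp W = 0)
    (α : G) (hα : ¬ ∃ u ∈ U, α * u ∈ L) :
    ∃ (γ : G) (W : Wt) (n : ℤ) (u : G), γ ∈ L ∧ u ∈ U ∧ ¬ (p : ℤ) ∣ n ∧
      α * γ = a W ^ n * u := by
  classical
  have hp : p.Prime := Fact.out
  have hp1 : 0 < p := hp.pos
  -- the index of `L`
  have hLfin : Finite (G ⧸ L) ∧ Nat.card (G ⧸ L) ≤ p ^ (2 * d) := by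
    have key : ∀ B : Finset (G ⧸ L), B.card ≤ p ^ (2 * d) := by
      intro B
      have h1 := hidx (B.image Quotient.out) (by
        intro x hx y hy hxy
        obtain ⟨b, hb, rfl⟩ := Finset.mem_image.mp hx
        obtain ⟨c, hc, rfl⟩ := Finset.mem_image.mp hy
        intro hmem
        apply hxy
        congr 1
        have e1 : (QuotientGroup.mk (Quotient.out b) : G ⧸ L) = b := QuotientGroup.out_eq' b
        have e2 : (QuotientGroup.mk (Quotient.out c) : G ⧸ L) = c := QuotientGroup.out_eq' c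
        rw [← e1, ← e2]
        rw [eq_comm, QuotientGroup.eq, ← div_eq_inv_mul]
        exact hmem)
      rwa [Finset.card_image_of_injective _ (fun b c h => by
        have e1 : (QuotientGroup.mk (Quotient.out b) : G ⧸ L) = b := QuotientGroup.out_eq' b
        have e2 : (QuotientGroup.mk (Quotient.out c) : G ⧸ L) = c := QuotientGroup.out_eq' c
        rw [← e1, ← e2]
        exact congrArg _ h)] at h1
    have hfin : Finite (G ⧸ L) := by
      by_contra hinf
      rw [not_finite_iff_infinite] at hinf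
      obtain ⟨B, hB⟩ := Infinite.exists_subset_card_eq (G ⧸ L) (p ^ (2 * d) + 1)
      have := key B
      omega
    refine ⟨hfin, ?_⟩
    have := Fintype.ofFinite (G ⧸ L)
    rw [Nat.card_eq_fintype_card]
    exact key Finset.univ
  obtain ⟨hLf, hLc⟩ := hLfin
  -- the index of `L` in `U L`
  have hrel : p ^ d ≤ L.relIndex (U ⊔ L) := by
    rw [Subgroup.relIndex_sup_right]
    have hfin2 : Finite (U ⧸ L.subgroupOf U) := by
      have : Function.Injective (Subgroup.quotientSubgroupOfEmbeddingOfLE L (le_refl (⊤ : Subgroup G))) := by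
        exact Function.Embedding.injective _
      have h3 : (L.subgroupOf U).index ≠ 0 := by
        have : L.index ≠ 0 := Nat.card_pos.ne'
        intro h0
        have h4 : L.relIndex U = 0 := h0
        exact this (Subgroup.index_eq_zero_of_relIndex_eq_zero h4)
      exact Nat.finite_of_card_ne_zero h3
    have hinj : Function.Injective (fun x : A => (QuotientGroup.mk ⟨x.1, hAU x.1 x.2⟩ :
        U ⧸ L.subgroupOf U)) := by
      intro x y hxy
      by_contra hne
      have h1 : (QuotientGroup.mk (⟨y.1, hAU y.1 y.2⟩ : U) : U ⧸ L.subgroupOf U) =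
        QuotientGroup.mk ⟨x.1, hAU x.1 x.2⟩ := hxy.symm
      rw [QuotientGroup.eq, Subgroup.mem_subgroupOf] at h1
      have h2 : x.1 / y.1 ∈ L := by
        rw [div_eq_inv_mul]
        exact h1
      obtain ⟨z, -, hz⟩ := hUL _ (U.div_mem (hAU x.1 x.2) (hAU y.1 y.2)) h2
      exact hAP x.1 x.2 y.1 y.2 (fun h => hne (Subtype.ext h)) ⟨z, hz⟩
    have h5 := Nat.card_le_card_of_injective _ hinj
    rw [Nat.card_eq_fintype_card, Fintype.card_coe, hA] at h5
    exact h5
  have hRc : (U ⊔ L).index ≤ p ^ d := by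
    have h1 := Subgroup.relIndex_mul_index (le_sup_right : L ≤ U ⊔ L)
    have h2 : L.index ≤ p ^ (2 * d) := hLc
    have h3 : p ^ d * (U ⊔ L).index ≤ p ^ d * p ^ d := by
      calc p ^ d * (U ⊔ L).index ≤ L.relIndex (U ⊔ L) * (U ⊔ L).index :=
            Nat.mul_le_mul_right _ hrel
        _ = L.index := h1
        _ ≤ p ^ (2 * d) := h2
        _ = p ^ d * p ^ d := by rw [two_mul, pow_add]
    exact Nat.le_of_mul_le_mul_left h3 (by positivity)
  have hRf : Finite (G ⧸ (U ⊔ L)) := by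
    have : (U ⊔ L).index ≠ 0 := by
      intro h0
      have h1 := Subgroup.relIndex_mul_index (le_sup_right : L ≤ U ⊔ L)
      rw [h0, mul_zero] at h1
      have : L.index ≠ 0 := Nat.card_pos.ne'
      exact this h1.symm
    exact Nat.finite_of_card_ne_zero this
  -- the functionals
  let X := Additive U →+ ZMod p
  have hrep : ∀ l : ℙ (ZMod p) X, ∃ (W : Wt) (n : ZMod p), n ≠ 0 ∧ kp W = n • l.rep :=
    fun l => hit l.rep l.rep_nonzero
  choose Wl nl hnl hkp using hrep
  have hmem : ∀ g : G, g ∈ U ⊔ L → ∃ u ∈ U, g * u⁻¹ ∈ L := by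
    intro g hg
    rw [Subgroup.mem_sup] at hg
    obtain ⟨u, hu, l, hl, rfl⟩ := hg
    exact ⟨u, hu, by simpa [mul_comm u l] using hl⟩
  have hval : ∀ c : (ZMod p)ˣ, ¬ (p : ℤ) ∣ ((c : ZMod p).val : ℤ) := by
    intro c hc
    rw [Int.natCast_dvd_natCast, ← ZMod.natCast_eq_zero_iff, ZMod.natCast_zmod_val] at hc
    exact c.ne_zero hc
  let f : ℙ (ZMod p) X × (ZMod p)ˣ → {r : G ⧸ (U ⊔ L) // r ≠ 1} := fun q =>
    ⟨QuotientGroup.mk (a (Wl q.1) ^ (((q.2 : ZMod p).val : ℕ) : ℤ)), by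
      intro h
      rw [QuotientGroup.eq_one_iff] at h
      obtain ⟨u, hu, h2⟩ := hmem _ h
      have h3 := one (Wl q.1) _ (hval q.2) u⁻¹ (U.inv_mem hu) h2
      rw [hkp] at h3
      exact (smul_ne_zero (hnl q.1) q.1.rep_nonzero) h3⟩
  have hf : Function.Injective f := by
    rintro ⟨l, c⟩ ⟨l', c'⟩ h
    have h1 : (QuotientGroup.mk (a (Wl l) ^ (((c : ZMod p).val : ℕ) : ℤ)) : G ⧸ (U ⊔ L)) =
        QuotientGroup.mk (a (Wl l') ^ (((c' : ZMod p).val : ℕ) : ℤ)) := congrArg Subtype.val h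
    rw [eq_comm, QuotientGroup.eq] at h1
    obtain ⟨u, hu, h2⟩ := hmem _ h1
    have hll : l = l' := by
      by_cases hW : Wl l = Wl l'
      · have h3 : nl l • l.rep = nl l' • l'.rep := by rw [← hkp, ← hkp, hW]
        rw [← l.mk_rep, ← l'.mk_rep, Projectivization.mk_eq_mk_iff']
        refine ⟨(nl l)⁻¹ * nl l', ?_⟩
        rw [mul_smul, ← h3, smul_smul, inv_mul_cancel₀ (hnl l), one_smul]
      · have h3 : a (Wl l) ^ (((c : ZMod p).val : ℕ) : ℤ) *
            a (Wl l') ^ (-(((c' : ZMod p).val : ℕ) : ℤ)) * u⁻¹ ∈ L := by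
          have e : (a (Wl l') ^ (((c' : ZMod p).val : ℕ) : ℤ))⁻¹ *
              a (Wl l) ^ (((c : ZMod p).val : ℕ) : ℤ) * u⁻¹ =
              a (Wl l) ^ (((c : ZMod p).val : ℕ) : ℤ) *
              a (Wl l') ^ (-(((c' : ZMod p).val : ℕ) : ℤ)) * u⁻¹ := by
            rw [zpow_neg]
            simp only [mul_comm]
          rw [← e]
          exact h2
        obtain ⟨m, m', hm, h4⟩ := two _ _ _ _ hW (hval c) (by
          rw [dvd_neg]; exact hval c') u⁻¹ (U.inv_mem hu) h3
        rw [hkp, hkp, smul_smul, smul_smul] at h4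
        have hm0 : m ≠ 0 := by
          intro h0
          rw [h0, zero_mul, zero_smul, zero_add] at h4
          rcases hm with hm | hm
          · exact hm h0
          · exact (smul_ne_zero (mul_ne_zero hm (hnl l')) l'.rep_nonzero) h4
        rw [← l.mk_rep, ← l'.mk_rep, Projectivization.mk_eq_mk_iff']
        refine ⟨-((m * nl l)⁻¹ * (m' * nl l')), ?_⟩
        have h5 : (m' * nl l') • l'.rep = -((m * nl l) • l.rep) := eq_neg_of_add_eq_zero_right h4
        rw [neg_smul, mul_smul, h5, smul_neg, smul_smul,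
          inv_mul_cancel₀ (mul_ne_zero hm0 (hnl l)), one_smul, neg_neg]
    subst hll
    congr 1
    by_contra hcc
    have h3 : a (Wl l) ^ ((((c : ZMod p).val : ℕ) : ℤ) - (((c' : ZMod p).val : ℕ) : ℤ)) * u⁻¹ ∈ L := by
      have e : (a (Wl l) ^ (((c' : ZMod p).val : ℕ) : ℤ))⁻¹ *
          a (Wl l) ^ (((c : ZMod p).val : ℕ) : ℤ) * u⁻¹ =
          a (Wl l) ^ ((((c : ZMod p).val : ℕ) : ℤ) - (((c' : ZMod p).val : ℕ) : ℤ)) * u⁻¹ := by
        rw [zpow_sub]
        simp only [mul_comm]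
      rw [← e]
      exact h2
    have h4 := one (Wl l) _ (by
      intro hd
      apply hcc
      apply Units.ext
      have : ((((c : ZMod p).val : ℕ) : ℤ) : ZMod p) = ((((c' : ZMod p).val : ℕ) : ℤ) : ZMod p) := by
        rw [ZMod.intCast_eq_intCast_iff_dvd_sub]
        rw [← dvd_neg, neg_sub]
        exact hd
      simpa using this) u⁻¹ (U.inv_mem hu) h3
    rw [hkp] at h4
    exact (smul_ne_zero (hnl l) l.rep_nonzero) h4
  -- `X` is finite with at least `p ^ d` elements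
  let e := Projectivization.nonZeroEquivProjectivizationProdUnits (ZMod p) X
  have hR1 : Finite {r : G ⧸ (U ⊔ L) // r ≠ 1} := inferInstance
  have hXf1 : Finite {v : X // v ≠ 0} :=
    Finite.of_injective (f ∘ e) (hf.comp e.injective)
  have hXf : Finite X := by
    have h1 : (Set.univ : Set X) = {v : X | v ≠ 0} ∪ {0} := by
      ext v
      simp [Classical.em]
    have h2 : ({v : X | v ≠ 0} : Set X).Finite := hXf1
    exact Set.finite_univ_iff.mp (h1 ▸ h2.union (Set.finite_singleton 0))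
  have hXc : p ^ d ≤ Nat.card X := by
    let ev : A → Module.Dual (ZMod p) X := fun x =>
      { toFun := fun φ => φ (Additive.ofMul (⟨x.1, hAU x.1 x.2⟩ : U))
        map_add' := fun φ ψ => rfl
        map_smul' := fun c φ => rfl }
    have hev : Function.Injective ev := by
      intro x y hxy
      by_contra hne
      have hne' : x.1 ≠ y.1 := fun h => hne (Subtype.ext h)
      obtain ⟨φ, hφ⟩ := exists_functional (p := p) U
        (⟨x.1, hAU x.1 x.2⟩ / ⟨y.1, hAU y.1 y.2⟩) (by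
          intro z hz
          apply hAP x.1 x.2 y.1 y.2 hne'
          exact ⟨z.1, by simpa using congrArg Subtype.val hz⟩)
      apply hφ
      have h1 : ev x φ = ev y φ := by rw [hxy]
      have h2 : φ (Additive.ofMul (⟨x.1, hAU x.1 x.2⟩ : U)) =
        φ (Additive.ofMul (⟨y.1, hAU y.1 y.2⟩ : U)) := h1
      rw [ofMul_div, map_sub, h2, sub_self]
    have hDf : Finite (Module.Dual (ZMod p) X) := Module.finite_of_finite (ZMod p)
    have h1 := Nat.card_le_card_of_injective _ hev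
    rw [Nat.card_eq_fintype_card, Fintype.card_coe, hA] at h1
    have h2 : Nat.card (Module.Dual (ZMod p) X) = Nat.card X := by
      rw [Module.natCard_eq_pow_finrank (K := ZMod p) (V := Module.Dual (ZMod p) X),
        Module.natCard_eq_pow_finrank (K := ZMod p) (V := X), Subspace.dual_finrank_eq]
    omega
  -- surjectivity
  have hcard1 : Nat.card {v : X // v ≠ 0} = Nat.card X - 1 := by
    have := Fintype.ofFinite X
    rw [Nat.card_eq_fintype_card, Nat.card_eq_fintype_card, Fintype.card_subtype_compl,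
      Fintype.card_subtype_eq]
  have hcard2 : Nat.card {r : G ⧸ (U ⊔ L) // r ≠ 1} = Nat.card (G ⧸ (U ⊔ L)) - 1 := by
    have := Fintype.ofFinite (G ⧸ (U ⊔ L))
    rw [Nat.card_eq_fintype_card, Nat.card_eq_fintype_card, Fintype.card_subtype_compl,
      Fintype.card_subtype_eq]
  have hle : Nat.card {r : G ⧸ (U ⊔ L) // r ≠ 1} ≤ Nat.card {v : X // v ≠ 0} := by
    rw [hcard1, hcard2]
    have : Nat.card (G ⧸ (U ⊔ L)) ≤ p ^ d := hRc
    omega
  have hbij : Function.Bijective (f ∘ e) :=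
    (hf.comp e.injective).bijective_of_nat_card_le hle
  have hα1 : (QuotientGroup.mk α : G ⧸ (U ⊔ L)) ≠ 1 := by
    intro h
    rw [QuotientGroup.eq_one_iff] at h
    obtain ⟨u, hu, h2⟩ := hmem _ h
    exact hα ⟨u⁻¹, U.inv_mem hu, h2⟩
  obtain ⟨v, hv⟩ := hbij.2 ⟨QuotientGroup.mk α, hα1⟩
  set q := e v with hq
  have hv2 : (QuotientGroup.mk (a (Wl q.1) ^ (((q.2 : ZMod p).val : ℕ) : ℤ)) : G ⧸ (U ⊔ L)) =
    QuotientGroup.mk α := congrArg Subtype.val hv
  rw [eq_comm, QuotientGroup.eq] at hv2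
  obtain ⟨u, hu, h2⟩ := hmem _ hv2
  refine ⟨α⁻¹ * a (Wl q.1) ^ (((q.2 : ZMod p).val : ℕ) : ℤ) * u⁻¹, Wl q.1, _, u⁻¹, h2,
    U.inv_mem hu, hval q.2, ?_⟩
  group

end

end Pool.Agent.Helper64.REC
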