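import Pool.Agent.Helper51.REC.Goals2
import Pool.Agent.Helper42.RD.VAL
import Pool.Agent.Helper64.REC.ABS

/-!
# Project REC, packet L_LIN
-/

set_option autoImplicit false

namespace Pool.Agent.Helper64.REC

open NumberField Module IsDedekindDomain Pool.Agent.Helper51.RP Pool.Agent.Helper42.PP
open Pool.Agent.Helper51.REC

section

variable {F : Type} [Field F] [NumberField F]

theorem om (w : HeightOneSpectrum (𝓞 F)) (x y : Fˣ) :
    ordv w ((x * y : Fˣ) : F) = ordv w (x : F) + ordv w (y : F) := by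
  rw [Units.val_mul, Pool.Agent.Helper42.RD.ordv_mul w x.ne_zero y.ne_zero]

theorem oz (w : HeightOneSpectrum (𝓞 F)) (x : Fˣ) (n : ℤ) :
    ordv w ((x ^ n : Fˣ) : F) = n * ordv w (x : F) := by
  rw [Units.val_zpow_eq_zpow_val, Pool.Agent.Helper42.RD.ordv_zpow w x.ne_zero n]

theorem ou {S : Set (HeightOneSpectrum (𝓞 F))} {u : Fˣ} (hu : u ∈ S.unit F)
    {w : HeightOneSpectrum (𝓞 F)} (hw : w ∉ S) : ordv w (u : F) = 0 := by
  rw [Pool.Agent.Helper42.RD.ordv_eq_zero_iff w u.ne_zero]
  exact Set.unit_valuation_eq_one S F ⟨u, hu⟩ hw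

theorem mem_unit_of {S : Set (HeightOneSpectrum (𝓞 F))} {u : Fˣ}
    (h : ∀ w ∉ S, ordv w (u : F) = 0) : u ∈ S.unit F := by
  show ∀ w ∉ S, w.valuation F (u : F) = 1
  intro w hw
  exact (Pool.Agent.Helper42.RD.ordv_eq_zero_iff w u.ne_zero).mp (h w hw)

theorem pw_mem {p : ℕ} [Fact p.Prime] {S : Set (HeightOneSpectrum (𝓞 F))} {u y : Fˣ}
    (hu : u ∈ S.unit F) (h : u = y ^ p) : y ∈ S.unit F := by
  apply mem_unit_of
  intro w hw
  have h1 := ou hu hw
  rw [h] at h1
  have h2 := oz w y (p : ℤ)
  rw [zpow_natCast] at h2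
  rw [h2] at h1
  rcases mul_eq_zero.mp h1 with h3 | h3
  · exact absurd h3 (by exact_mod_cast (Fact.out : p.Prime).ne_zero)
  · exact h3

theorem pw_dvd {p : ℕ} {x : Fˣ} (h : Pw p x) (w : HeightOneSpectrum (𝓞 F)) :
    (p : ℤ) ∣ ordv w (x : F) := by
  obtain ⟨y, rfl⟩ := h
  have h2 := oz w y (p : ℤ)
  rw [zpow_natCast] at h2
  rw [h2]
  exact Dvd.intro _ rfl

end

theorem l_lin (h1 : K_LOC) (h2 : K_BRK) (h3 : H_A) (h4 : L_IDX) (h5 : L_UNI) (h6 : L_HIT) :
    L_LIN := by
  intro p _ F _ _ ε S hS α hα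
  classical
  have hcplx : IsTotallyComplex F := hS.cplx
  obtain ⟨kl1, kl2, kl3, -, -⟩ := h1 p F S hS.fin
  obtain ⟨-, -, kb3, kb4, -⟩ := h2 p F ε S hS.prim hS.abp
  let L : Subgroup Fˣ :=
    { carrier := {x | LocS p S x}
      mul_mem' := fun {x y} hx hy => kl1 x y hx hy
      one_mem' := by
        have := kl3 1
        rwa [one_pow] at this
      inv_mem' := fun {x} hx => kl2 x hx }
  have hLm : ∀ x : Fˣ, x ∈ L ↔ LocS p S x := fun x => Iff.rfl
  have heven : finrank ℚ F = 2 * (finrank ℚ F / 2) := by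
    have := IsTotallyComplex.finrank F
    omega
  -- primes outside `S`
  let Wt := {W : HeightOneSpectrum (𝓞 F) // W ∉ S}
  have hpr : ∀ W : Wt, ∃ x : Fˣ, ∀ V ∉ S, ordv V (x : F) = if V = W.1 then 1 else 0 := by
    intro W
    obtain ⟨x, hx⟩ := hS.prin (Finsupp.single W.1 1)
    refine ⟨x, fun V hV => ?_⟩
    rw [hx V hV, Finsupp.single_apply]
    by_cases h : W.1 = V
    · rw [if_pos h, if_pos h.symm]
    · rw [if_neg h, if_neg (fun h' => h h'.symm)]
  choose a ha using hpr
  -- the symbol is additive on the `S`-units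
  have hbrk : ∀ (W : Wt) (x : Fˣ), brk p ε S x (a W) = kap p ε W.1 x := by
    intro W x
    rw [kb4 x (a W) {W.1} (by
      intro V hV
      rw [Finset.mem_singleton] at hV
      rw [hV]; exact W.2) (by
      intro V hV hd
      rw [Finset.mem_singleton]
      by_contra hne
      apply hd
      rw [ha W V hV, if_neg hne]
      exact dvd_zero _), Finset.sum_singleton, ha W W.1 W.2, if_pos rfl]
    simp
  have hadd : ∀ (W : Wt) (x y : Fˣ), x ∈ S.unit F → y ∈ S.unit F →
      kap p ε W.1 (x * y) = kap p ε W.1 x + kap p ε W.1 y := by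
    intro W x y hx hy
    rw [← hbrk, ← hbrk, ← hbrk]
    apply kb3
    intro V hV
    right
    rw [ou hx hV, ou hy hV]
    exact ⟨dvd_zero _, dvd_zero _⟩
  let kp : Wt → (Additive (S.unit F) →+ ZMod p) := fun W =>
    AddMonoidHom.mk' (fun x => kap p ε W.1 ((Additive.toMul x : S.unit F) : Fˣ)) (by
      intro x y
      exact hadd W _ _ (Additive.toMul x).2 (Additive.toMul y).2)
  obtain ⟨A, hA, hAU, hAP⟩ := h5 p F ε S hS
  -- relations
  have hrel : ∀ (β : Fˣ) (T : Finset (HeightOneSpectrum (𝓞 F))), LocS p S β →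
      (∀ W, W ∈ T ↔ W ∉ S ∧ ¬ (p : ℤ) ∣ ordv W (β : F)) → T.Nonempty →
      ∃ m : HeightOneSpectrum (𝓞 F) → ZMod p, (∃ W ∈ T, m W ≠ 0) ∧
        ∀ x ∈ S.unit F, ∑ W ∈ T, m W * kap p ε W x = 0 := by
    intro β T hβ hT hne
    apply h3 p F ε S hS β hβ _ T hT
    intro hP
    obtain ⟨W, hW⟩ := hne
    exact ((hT W).mp hW).2 (pw_dvd hP W)
  obtain ⟨γ, W, n, u, hγ, hu, hn, he⟩ := abs_count (p := p) (S.unit F) L
    (S.ncard + finrank ℚ F / 2) (by
      intro u hu hul
      by_contra hcon
      push Not at hcon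
      have hnp : ¬ Pw p u := by
        rintro ⟨y, hy⟩
        exact hcon y (pw_mem (p := p) hu hy) hy
      obtain ⟨m, ⟨V, hV, -⟩, -⟩ := h3 p F ε S hS u hul hnp ∅ (by
        intro V
        constructor
        · intro h
          exact absurd h (Finset.notMem_empty V)
        · rintro ⟨hV, hd⟩
          exact absurd (by rw [ou hu hV]; exact dvd_zero _) hd)
      exact absurd hV (Finset.notMem_empty V))
    (by
      intro B hB
      have := h4 p F ε S hS B hB
      rw [show 2 * (S.ncard + finrank ℚ F / 2) = 2 * S.ncard + finrank ℚ F by omega]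
      exact this)
    A hA hAU (by
      intro x hx y hy hxy
      exact hAP x hx y hy hxy)
    a kp
    (by
      intro φ hφ
      let ψ : S.unit F →* Multiplicative (ZMod p) :=
        { toFun := fun x => Multiplicative.ofAdd (φ (Additive.ofMul x))
          map_one' := by
            rw [ofMul_one, map_zero, ofAdd_zero]
          map_mul' := by
            intro x y
            rw [ofMul_mul, map_add, ofAdd_add] }
      have hψ : ψ ≠ 1 := by
        intro h
        apply hφ
        ext x
        have h8 : ψ (Additive.toMul x) = 1 := by rw [h]; rfl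
        exact congrArg Multiplicative.toAdd h8
      obtain ⟨W, n, hW, -, hn, hk⟩ := h6 p F ε S hS ψ hψ ∅ Set.finite_empty
      refine ⟨⟨W, hW⟩, n, hn, ?_⟩
      ext x
      exact hk (Additive.toMul x))
    (by
      intro W W' n n' hne hn hn' u hu hl
      have hne' : W.1 ≠ W'.1 := fun h => hne (Subtype.ext h)
      have hval : ∀ V ∉ S, ordv V ((a W ^ n * a W' ^ n' * u : Fˣ) : F) =
          n * (if V = W.1 then 1 else 0) + n' * (if V = W'.1 then 1 else 0) := by
        intro V hV
        rw [om, om, oz, oz, ha W V hV, ha W' V hV, ou hu hV, add_zero]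
      obtain ⟨m, ⟨V, hV, hm⟩, hs⟩ := hrel _ {W.1, W'.1} hl (by
        intro V
        rw [Finset.mem_insert, Finset.mem_singleton]
        constructor
        · rintro (rfl | rfl)
          · refine ⟨W.2, ?_⟩
            rw [hval _ W.2, if_pos rfl, if_neg hne']
            simpa using hn
          · refine ⟨W'.2, ?_⟩
            rw [hval _ W'.2, if_pos rfl, if_neg (fun h => hne' h.symm)]
            simpa using hn'
        · rintro ⟨hV, hd⟩
          by_contra hcon
          push Not at hcon
          apply hd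
          rw [hval V hV, if_neg hcon.1, if_neg hcon.2]
          simp) ⟨W.1, Finset.mem_insert_self _ _⟩
      refine ⟨m W.1, m W'.1, ?_, ?_⟩
      · rw [Finset.mem_insert, Finset.mem_singleton] at hV
        rcases hV with rfl | rfl
        · exact Or.inl hm
        · exact Or.inr hm
      · ext x
        have h9 := hs _ (Additive.toMul x).2
        rw [Finset.sum_pair hne'] at h9
        exact h9)
    (by
      intro W n hn u hu hl
      have hval : ∀ V ∉ S, ordv V ((a W ^ n * u : Fˣ) : F) =
          n * (if V = W.1 then 1 else 0) := by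
        intro V hV
        rw [om, oz, ha W V hV, ou hu hV, add_zero]
      obtain ⟨m, ⟨V, hV, hm⟩, hs⟩ := hrel _ {W.1} hl (by
        intro V
        rw [Finset.mem_singleton]
        constructor
        · rintro rfl
          refine ⟨W.2, ?_⟩
          rw [hval _ W.2, if_pos rfl]
          simpa using hn
        · rintro ⟨hV, hd⟩
          by_contra hcon
          apply hd
          rw [hval V hV, if_neg hcon]
          simp) ⟨W.1, Finset.mem_singleton_self _⟩
      rw [Finset.mem_singleton] at hV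
      subst hV
      ext x
      have h9 := hs _ (Additive.toMul x).2
      rw [Finset.sum_singleton] at h9
      rcases mul_eq_zero.mp h9 with h10 | h10
      · exact absurd h10 hm
      · exact h10)
    α hα
  refine ⟨γ, W.1, hγ, W.2, ?_, ?_⟩
  · rw [he, om, oz, ha W W.1 W.2, if_pos rfl, ou hu W.2, add_zero, mul_one]
    exact hn
  · intro V hV hVW
    rw [he, om, oz, ha W V hV, if_neg hVW, ou hu hV, mul_zero, add_zero]
    exact dvd_zero _

end Pool.Agent.Helper64.REC
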